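import Pool.Agent.MWHP.StmtsP

set_option autoImplicit false

/-!
# Block MWHP, row NFE
-/

namespace Pool.Agent.MWHP.H10

open Pool.Agent.Helper14_MV Pool.Agent.Helper2_MV Pool.Agent.MVO Pool.Agent.MWL Pool.Agent.MWS
open Pool.Agent.MWA Pool.Agent.MWH

theorem eqT_mem {n k : ℕ} {B C : ℕ → List ℕ} (hC : BlkOk k C) (h : EqT n k B C) {j : ℕ}
    (hj : j ≤ k) {x : ℕ} (hx : x ∈ C j) : x ∈ B j := by
  have hn := hC j hj x hx
  have h1 : (B j).count x = (C j).count x ∨ (2 ≤ (B j).count x ∧ 2 ≤ (C j).count x ∧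
    (B j).count x ≡ (C j).count x [MOD n]) := h x hn j hj
  have h2 : 0 < (C j).count x := List.count_pos_iff.2 hx
  rw [← List.count_pos_iff]
  rcases h1 with h1 | ⟨h1, _, _⟩ <;> omega

theorem eqT_symm {n k : ℕ} {B C : ℕ → List ℕ} (h : EqT n k B C) : EqT n k C B := by
  intro c hc j hj
  rcases h c hc j hj with h1 | ⟨h1, h2, h3⟩
  · exact Or.inl h1.symm
  · exact Or.inr ⟨h2, h1, h3.symm⟩

theorem eqT_trans {n k : ℕ} {B C D : ℕ → List ℕ} (h : EqT n k B C) (h' : EqT n k C D) :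
    EqT n k B D := by
  intro c hc j hj
  rcases h c hc j hj with h1 | ⟨h1, h2, h3⟩
  · rcases h' c hc j hj with h4 | ⟨h4, h5, h6⟩
    · exact Or.inl (h1.trans h4)
    · exact Or.inr ⟨by omega, h5, by rw [h1]; exact h6⟩
  · rcases h' c hc j hj with h4 | ⟨h4, h5, h6⟩
    · exact Or.inr ⟨h1, by omega, by rw [← h4]; exact h3⟩
    · exact Or.inr ⟨h1, h5, h3.trans h6⟩

theorem nfe (hmasn : MasnStmt) : NfeStmt := by
  intro n β hb k B B' hB hB' hS hF
  refine hmasn n β β hb.toBasN (fun _ _ h => h) k B B' hB hB' hS ?_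
  intro C i A D x y hC hSC hi hCi hne _ _ hnb
  have hx : x ∈ C i := by rw [hCi]; simp
  have hy : y ∈ C i := by rw [hCi]; simp
  by_cases hall : ∀ j ≤ k, j ≠ i → x ∉ B j ∨ y ∉ B j
  · exact absurd (hF i hi x y hne (eqT_mem hC.ok hSC hi hx) (eqT_mem hC.ok hSC hi hy) hall) hnb
  · push Not at hall
    obtain ⟨j, hj, hji, h1, h2⟩ := hall
    exact hb.cm2 k C hC i hi j hj hji A D x y hCi hne (eqT_mem hB.ok (eqT_symm hSC) hj h1)
      (eqT_mem hB.ok (eqT_symm hSC) hj h2)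

end Pool.Agent.MWHP.H10
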