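import Pool.Agent.Helper10_MWHP.NFE
import Pool.Agent.Helper10_MWH.SWH

set_option autoImplicit false

/-!
# Block MWHP, row SWH
-/

namespace Pool.Agent.MWHP.H10

open Pool.Agent.Helper14_MV Pool.Agent.Helper2_MV Pool.Agent.MVO Pool.Agent.MWL Pool.Agent.MWS
open Pool.Agent.MWA Pool.Agent.MWH
open Pool.Agent.MWH.H10 (bef_app bef_rep bef_one bef_nm1 bef_nm2 bef_pair bef_filter mid filt_one
  two_facts)

/-- the type of the letter `z` in `b` and `l` -/
def Sn (n a t : ℕ) : Prop := a = t ∨ (2 ≤ a ∧ 2 ≤ t ∧ a ≡ t [MOD n])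

/-- the same types and the same facts -/
def G (n : ℕ) (l l1 : List ℕ) : Prop :=
  (∀ c, Sn n (l.count c) (l1.count c)) ∧ ∀ c d, c ≠ d → (Bef l c d ↔ Bef l1 c d)

/-- the correction of the residue -/
def ev (n p : ℕ) : ℕ := if 2 ≤ p then (n - 1) * p + 1 else 0

theorem ev_mod {n p p' : ℕ} (hn : 1 ≤ n) (hp : 2 ≤ p) (h : p ≡ p' [MOD n]) :
    ev n p + p' ≡ 1 [MOD n] := by
  unfold ev
  rw [if_pos hp]
  have h1 : (n - 1) * p + 1 + p' ≡ (n - 1) * p + 1 + p [MOD n] := Nat.ModEq.add_left _ h.symm
  have h2 : (n - 1) * p + 1 + p = n * p + 1 := by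
    obtain ⟨m, rfl⟩ : ∃ m, n = m + 1 := ⟨n - 1, by omega⟩
    simp only [Nat.add_sub_cancel]
    ring
  rw [h2] at h1
  have h3 : n * p + 1 ≡ 0 + 1 [MOD n] :=
    Nat.ModEq.add_right 1 ((Nat.modEq_zero_iff_dvd).2 ⟨p, rfl⟩)
  simpa using h1.trans h3

theorem ev_pos {n p : ℕ} (hp : 2 ≤ p) : 1 ≤ ev n p := by
  unfold ev
  rw [if_pos hp]
  omega

/-- one occurrence is replaced by `N` occurrences -/
theorem rep_G {n : ℕ} {P Q : List ℕ} {z N : ℕ}
    (hN : N = 1 ∨ (2 ≤ P.count z + 1 + Q.count z ∧ 2 ≤ N ∧ N ≡ 1 [MOD n])) :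
    G n (P ++ z :: Q) (P ++ (List.replicate N z ++ Q)) := by
  refine ⟨fun c => ?_, fun c d hcd => ?_⟩
  · unfold Sn
    rw [List.count_append, List.count_append, List.count_append, List.count_replicate,
      List.count_cons]
    by_cases hcz : z = c
    · subst hcz
      simp only [beq_self_eq_true, ↓reduceIte]
      rcases hN with hN | ⟨h1, h2, h3⟩
      · left; omega
      · right
        refine ⟨by omega, by omega, ?_⟩
        have h4 : P.count z + (N + Q.count z) ≡ P.count z + (1 + Q.count z) [MOD n] :=
          Nat.ModEq.add_left _ (Nat.ModEq.add_right _ h3)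
        rw [Nat.add_comm 1] at h4
        exact h4.symm
    · have h1 : (z == c) = false := by simpa using hcz
      simp only [h1, Bool.false_eq_true, ↓reduceIte]
      left; omega
  · have hpos : 1 ≤ N := by omega
    exact mid (A := P) (M := [z]) (M' := List.replicate N z) (D := Q) (c := c) (d := d)
      (fun e => by
        rw [List.mem_singleton, List.mem_replicate]
        constructor
        · intro h; exact ⟨by omega, h⟩
        · intro h; exact h.2)
      (fun _ _ => ⟨fun _ => bef_rep N z hcd, fun _ => bef_one z hcd⟩)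

theorem G_refl (n : ℕ) (l : List ℕ) : G n l l := ⟨fun _ => Or.inl rfl, fun _ _ _ => Iff.rfl⟩

theorem blkz {n : ℕ} (hn : 1 ≤ n) (l : List ℕ) (z m m' : ℕ) (hm : Sn n m (l.count z))
    (hm' : Sn n m' (l.count z)) : ∃ P Q : List ℕ,
      G n l (P ++ List.replicate m z ++ Q) ∧ G n l (P ++ List.replicate m' z ++ Q) := by
  by_cases hz : z ∈ l
  · obtain ⟨P, Q, hPQ⟩ := List.append_of_mem hz
    have hc : l.count z = P.count z + (Q.count z + 1) := by
      rw [hPQ, List.count_append, List.count_cons_self]
    by_cases ht : 2 ≤ l.count z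
    · have hm2 : 2 ≤ m := by rcases hm with h | h <;> omega
      have hm2' : 2 ≤ m' := by rcases hm' with h | h <;> omega
      have hmm : m ≡ l.count z [MOD n] := by
        rcases hm with h | h
        · rw [h]
        · exact h.2.2
      have hmm' : m' ≡ l.count z [MOD n] := by
        rcases hm' with h | h
        · rw [h]
        · exact h.2.2
      have key : ∀ r : ℕ, 2 ≤ r → m ≡ r [MOD n] → G n l
          (P ++ List.replicate r z ++ (List.replicate (ev n m) z ++ Q)) := by
        intro r hr hmr
        have h1 : P ++ List.replicate r z ++ (List.replicate (ev n m) z ++ Q) =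
            P ++ (List.replicate (r + ev n m) z ++ Q) := by
          simp only [List.replicate_add, List.append_assoc]
        rw [h1, hPQ]
        refine rep_G (Or.inr ⟨by omega, by omega, ?_⟩)
        rw [Nat.add_comm]
        exact ev_mod hn hm2 hmr
      exact ⟨P, List.replicate (ev n m) z ++ Q, key m hm2 rfl, key m' hm2' (hmm.trans hmm'.symm)⟩
    · have h1 : m = 1 := by rcases hm with h | h <;> omega
      have h2 : m' = 1 := by rcases hm' with h | h <;> omega
      subst h1
      subst h2
      have h3 : P ++ List.replicate 1 z ++ Q = l := by rw [hPQ]; simp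
      refine ⟨P, Q, ?_, ?_⟩
      · rw [h3]; exact G_refl n l
      · rw [h3]; exact G_refl n l
  · have h0 : l.count z = 0 := List.count_eq_zero.2 hz
    have h1 : m = 0 := by rcases hm with h | h <;> omega
    have h2 : m' = 0 := by rcases hm' with h | h <;> omega
    subst h1
    subst h2
    refine ⟨l, [], ?_, ?_⟩ <;> simpa using G_refl n l

theorem blkj {n : ℕ} (hn : 1 ≤ n) (l b b' : List ℕ) (x y : ℕ) (h : x ∉ l ∨ y ∉ l)
    (hx : Sn n (b.count x) (l.count x)) (hy : Sn n (b.count y) (l.count y))
    (hx' : Sn n (b'.count x) (l.count x)) (hy' : Sn n (b'.count y) (l.count y)) :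
    ∃ P Q : List ℕ, G n l (P ++ b.filter (fun c => decide (c = x ∨ c = y)) ++ Q) ∧
      G n l (P ++ b'.filter (fun c => decide (c = x ∨ c = y)) ++ Q) := by
  have hnot : ∀ (z : ℕ) (b : List ℕ), z ∉ l → Sn n (b.count z) (l.count z) → z ∉ b := by
    intro z b hz hb
    have h0 : l.count z = 0 := List.count_eq_zero.2 hz
    rw [← List.count_eq_zero]
    rcases hb with hb | hb <;> omega
  rcases h with h | h
  · have hf : ∀ b : List ℕ, Sn n (b.count x) (l.count x) →
        b.filter (fun c => decide (c = x ∨ c = y)) = List.replicate (b.count y) y := by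
      intro b hb
      refine filt_one b _ y (fun c hc hf => ?_) (by simp)
      rw [decide_eq_true_iff] at hf
      rcases hf with hf | hf
      · subst hf; exact absurd hc (hnot _ b h hb)
      · exact hf
    rw [hf b hx, hf b' hx']
    exact blkz hn l y _ _ hy hy'
  · have hf : ∀ b : List ℕ, Sn n (b.count y) (l.count y) →
        b.filter (fun c => decide (c = x ∨ c = y)) = List.replicate (b.count x) x := by
      intro b hb
      refine filt_one b _ x (fun c hc hf => ?_) (by simp)
      rw [decide_eq_true_iff] at hf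
      rcases hf with hf | hf
      · exact hf
      · subst hf; exact absurd hc (hnot _ b h hb)
    rw [hf b hy, hf b' hy']
    exact blkz hn l x _ _ hx hx'

/-- the corrected middle part -/
def md (n p q : ℕ) (x y : ℕ) (b : List ℕ) : List ℕ :=
  List.replicate (ev n p) x ++ (b.filter (fun c => decide (c = x ∨ c = y)) ++
    List.replicate (ev n q) y)

theorem md_mem {n p q x y : ℕ} {b : List ℕ} (hx : x ∈ b) (hy : y ∈ b) (e : ℕ) :
    (e = x ∨ e = y) ↔ e ∈ md n p q x y b := by
  unfold md
  rw [List.mem_append, List.mem_append, List.mem_filter, decide_eq_true_iff]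
  constructor
  · rintro (h | h)
    · subst h; exact Or.inr (Or.inl ⟨hx, Or.inl rfl⟩)
    · subst h; exact Or.inr (Or.inl ⟨hy, Or.inr rfl⟩)
  · rintro (h | h | h)
    · exact Or.inl (List.eq_of_mem_replicate h)
    · exact h.2
    · exact Or.inr (List.eq_of_mem_replicate h)

theorem md_count {n p q x y : ℕ} {b : List ℕ} (c : ℕ) :
    (md n p q x y b).count c = (if x = c then ev n p else 0) +
      ((if c = x ∨ c = y then b.count c else 0) + (if y = c then ev n q else 0)) := by
  unfold md
  rw [List.count_append, List.count_append, List.count_replicate, List.count_replicate]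
  have h3 : (b.filter (fun c => decide (c = x ∨ c = y))).count c =
      if c = x ∨ c = y then b.count c else 0 := by
    by_cases hc : c = x ∨ c = y
    · rw [if_pos hc]
      exact List.count_filter (by rw [decide_eq_true_iff]; exact hc)
    · rw [if_neg hc, List.count_eq_zero]
      intro h4
      have h5 := (List.mem_filter.1 h4).2
      rw [decide_eq_true_iff] at h5
      exact hc h5
  rw [h3]
  simp only [beq_iff_eq]

theorem cnt_mid {n : ℕ} (hn : 1 ≤ n) {l A D b : List ℕ} {x y p q : ℕ} (hxy : x ≠ y)
    (hl : l = A ++ x :: y :: D) (hxD : x ∉ D) (hyA : y ∉ A) (hp : Sn n p (l.count x))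
    (hq : Sn n q (l.count y)) (hx : Sn n (b.count x) (l.count x))
    (hy : Sn n (b.count y) (l.count y)) (c : ℕ) :
    Sn n (l.count c) ((A ++ (md n p q x y b ++ D)).count c) := by
  have h1 : l.count c = A.count c + (D.count c + (if y = c then 1 else 0) +
      (if x = c then 1 else 0)) := by
    rw [hl, List.count_append, List.count_cons, List.count_cons]
    simp only [beq_iff_eq]
  have h2 : (A ++ (md n p q x y b ++ D)).count c = A.count c +
      ((md n p q x y b).count c + D.count c) := by
    rw [List.count_append, List.count_append]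
  rw [h2, md_count]
  -- the arithmetic of one letter
  have key : ∀ t r s u : ℕ, t = u + 1 → Sn n r t → Sn n s t →
      (s + ev n r = 1 ∧ t = 1) ∨ (2 ≤ t ∧ 2 ≤ s ∧ s + ev n r ≡ 1 [MOD n]) := by
    intro t r s u ht hr hs
    by_cases h3 : 2 ≤ t
    · right
      have hr2 : 2 ≤ r := by rcases hr with h | h <;> omega
      have hs2 : 2 ≤ s := by rcases hs with h | h <;> omega
      have hrm : r ≡ t [MOD n] := by
        rcases hr with h | h
        · rw [h]
        · exact h.2.2
      have hsm : s ≡ t [MOD n] := by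
        rcases hs with h | h
        · rw [h]
        · exact h.2.2
      refine ⟨h3, hs2, ?_⟩
      rw [Nat.add_comm]
      exact ev_mod hn hr2 (hrm.trans hsm.symm)
    · left
      have hr1 : r = 1 := by rcases hr with h | h <;> omega
      have hs1 : s = 1 := by rcases hs with h | h <;> omega
      subst hr1
      subst hs1
      refine ⟨?_, by omega⟩
      unfold ev
      rw [if_neg (by omega)]
  by_cases hcx : c = x
  · subst hcx
    have hD : D.count c = 0 := List.count_eq_zero.2 hxD
    rw [if_neg (Ne.symm hxy), if_pos rfl, hD] at h1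
    rw [if_pos rfl, if_pos (Or.inl rfl), if_neg (Ne.symm hxy), hD]
    rcases key (l.count c) p (b.count c) (A.count c) (by omega) hp hx with ⟨h3, h4⟩ | ⟨h3, h4, h5⟩
    · left; omega
    · right
      refine ⟨h3, by omega, ?_⟩
      have h6 : A.count c + (b.count c + ev n p) ≡ A.count c + 1 [MOD n] :=
        Nat.ModEq.add_left _ h5
      have h7 : A.count c + (ev n p + (b.count c + 0) + 0) = A.count c + (b.count c + ev n p) := by
        omega
      have h8 : l.count c = A.count c + 1 := by omega
      rw [h7, h8]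
      exact h6.symm
  · by_cases hcy : c = y
    · subst hcy
      have hA : A.count c = 0 := List.count_eq_zero.2 hyA
      rw [if_pos rfl, if_neg hxy, hA] at h1
      rw [if_neg hxy, if_pos (Or.inr rfl), if_pos rfl, hA]
      rcases key (l.count c) q (b.count c) (D.count c) (by omega) hq hy with
        ⟨h3, h4⟩ | ⟨h3, h4, h5⟩
      · left; omega
      · right
        refine ⟨h3, by omega, ?_⟩
        have h6 : (b.count c + ev n q) + D.count c ≡ 1 + D.count c [MOD n] :=
          Nat.ModEq.add_right _ h5
        have h7 : 0 + (0 + (b.count c + ev n q) + D.count c) = (b.count c + ev n q) + D.count c := by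
          omega
        have h8 : l.count c = 1 + D.count c := by omega
        rw [h7, h8]
        exact h6.symm
    · rw [if_neg (fun h => hcy h.symm), if_neg (fun h => hcx h.symm)] at h1
      rw [if_neg (fun h => hcx h.symm), if_neg (fun h => h.elim hcx hcy),
        if_neg (fun h => hcy h.symm)]
      left; omega

theorem md_bef {n p q x y : ℕ} {b : List ℕ} (hxy : x ≠ y) (h : Bef b x y) :
    Bef (md n p q x y b) x y := by
  unfold md
  rw [bef_app, bef_app]
  refine ⟨bef_rep _ _ hxy, ⟨(bef_filter b _ x y (by simp) (by simp)).2 h, bef_rep _ _ hxy, ?_⟩, ?_⟩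
  · intro _ h1
    exact hxy (List.eq_of_mem_replicate h1)
  · intro h1
    exact absurd (List.eq_of_mem_replicate h1).symm hxy

theorem md_bef' {n p q x y : ℕ} {b : List ℕ} (h : Bef (md n p q x y b) x y) : Bef b x y := by
  unfold md at h
  rw [bef_app, bef_app] at h
  exact (bef_filter b _ x y (by simp) (by simp)).1 h.2.1.1

theorem not_both {M : List ℕ} {x y : ℕ} (hxy : x ≠ y) (hx : x ∈ M) (hy : y ∈ M) (h : Bef M x y) :
    ¬ Bef M y x := by
  intro h'
  obtain ⟨P, Q, hPQ⟩ := List.append_of_mem hy
  have h1 : x ∉ Q := h P Q hPQ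
  have h2 : x ∈ P := by
    rw [hPQ, List.mem_append, List.mem_cons] at hx
    rcases hx with h3 | h3 | h3
    · exact h3
    · exact absurd h3 hxy
    · exact absurd h3 h1
  obtain ⟨P1, P2, hP⟩ := List.append_of_mem h2
  refine h' P1 (P2 ++ y :: Q) ?_ (by simp)
  rw [hPQ, hP]
  simp

theorem mem_pair {x y e : ℕ} : e ∈ [x, y] ↔ (e = x ∨ e = y) := by simp

theorem blki1 {n : ℕ} (hn : 1 ≤ n) {l A D b : List ℕ} {x y p q : ℕ} (hxy : x ≠ y)
    (hl : l = A ++ x :: y :: D) (hxD : x ∉ D) (hyA : y ∉ A) (hp : Sn n p (l.count x))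
    (hq : Sn n q (l.count y)) (hx : Sn n (b.count x) (l.count x))
    (hy : Sn n (b.count y) (l.count y)) (hbef : Bef b x y) :
    G n l (A ++ (md n p q x y b ++ D)) := by
  have hlx : 0 < l.count x := List.count_pos_iff.2 (by rw [hl]; simp)
  have hly : 0 < l.count y := List.count_pos_iff.2 (by rw [hl]; simp)
  have hbx : x ∈ b := by rw [← List.count_pos_iff]; rcases hx with h | h <;> omega
  have hby : y ∈ b := by rw [← List.count_pos_iff]; rcases hy with h | h <;> omega
  have hmem : ∀ e, e ∈ [x, y] ↔ e ∈ md n p q x y b := fun e => mem_pair.trans (md_mem hbx hby e)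
  refine ⟨cnt_mid hn hxy hl hxD hyA hp hq hx hy, fun c d hcd => ?_⟩
  rw [hl]
  refine mid (M := [x, y]) hmem (fun _ _ => ?_)
  rw [bef_pair hcd]
  have hM : Bef (md n p q x y b) x y := md_bef hxy hbef
  by_cases hc : c = x ∨ c = y
  · by_cases hd : d = x ∨ d = y
    · rcases hc with hc | hc
      · subst hc
        rcases hd with hd | hd
        · exact absurd hd.symm hcd
        · subst hd
          exact ⟨fun _ => hM, fun _ h => hcd h.2⟩
      · subst hc
        rcases hd with hd | hd
        · subst hd
          refine ⟨fun h => absurd ⟨rfl, rfl⟩ h, fun h _ => ?_⟩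
          exact not_both hxy ((hmem _).1 (by simp)) ((hmem _).1 (by simp)) hM h
        · exact absurd hd.symm hcd
    · have h1 : d ∉ md n p q x y b := by
        rw [← hmem]
        simpa using hd
      refine ⟨fun _ => bef_nm2 h1, fun _ h => hd (Or.inl h.1)⟩
  · have h1 : c ∉ md n p q x y b := by
      rw [← hmem]
      simpa using hc
    refine ⟨fun _ => bef_nm1 h1, fun _ h => hc (Or.inr h.2)⟩

theorem blki2 {n : ℕ} (hn : 1 ≤ n) {l A D b : List ℕ} {x y p q : ℕ} (hxy : x ≠ y)
    (hl : l = A ++ x :: y :: D) (hxD : x ∉ D) (hyA : y ∉ A) (hp : Sn n p (l.count x))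
    (hq : Sn n q (l.count y)) (hx : Sn n (b.count x) (l.count x))
    (hy : Sn n (b.count y) (l.count y)) (hbef : ¬ Bef b x y) :
    G n (A ++ y :: x :: D) (A ++ (md n p q x y b ++ D)) := by
  have hlx : 0 < l.count x := List.count_pos_iff.2 (by rw [hl]; simp)
  have hly : 0 < l.count y := List.count_pos_iff.2 (by rw [hl]; simp)
  have hbx : x ∈ b := by rw [← List.count_pos_iff]; rcases hx with h | h <;> omega
  have hby : y ∈ b := by rw [← List.count_pos_iff]; rcases hy with h | h <;> omega
  have hmem : ∀ e, e ∈ [y, x] ↔ e ∈ md n p q x y b :=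
    fun e => (mem_pair.trans or_comm).trans (md_mem hbx hby e)
  have hcnt : ∀ c, (A ++ y :: x :: D).count c = l.count c := by
    intro c
    rw [hl, List.count_append, List.count_append, List.count_cons, List.count_cons,
      List.count_cons, List.count_cons]
    omega
  refine ⟨fun c => ?_, fun c d hcd => ?_⟩
  · rw [hcnt c]
    exact cnt_mid hn hxy hl hxD hyA hp hq hx hy c
  refine mid (M := [y, x]) hmem (fun hA hD => ?_)
  rw [bef_pair hcd]
  by_cases hc : c = x ∨ c = y
  · by_cases hd : d = x ∨ d = y
    · rcases hc with hc | hc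
      · subst hc
        rcases hd with hd | hd
        · exact absurd hd.symm hcd
        · subst hd
          exact ⟨fun h => absurd ⟨rfl, rfl⟩ h, fun h => absurd (md_bef' h) hbef⟩
      · subst hc
        rcases hd with hd | hd
        · subst hd
          refine ⟨fun _ => ?_, fun _ h => hcd h.2⟩
          have hdA : d ∉ A := fun h => hA h (by simp)
          have hcD : c ∉ D := hD (by simp)
          have h1 : l.count d = 1 := by
            rw [hl, List.count_append, List.count_cons_self, List.count_cons_of_ne hcd,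
              List.count_eq_zero.2 hdA, List.count_eq_zero.2 hxD]
          have h2 : l.count c = 1 := by
            rw [hl, List.count_append, List.count_cons_of_ne (Ne.symm hcd), List.count_cons_self,
              List.count_eq_zero.2 hyA, List.count_eq_zero.2 hcD]
          have hp1 : p = 1 := by rcases hp with h | h <;> omega
          have hq1 : q = 1 := by rcases hq with h | h <;> omega
          have hx1 : b.count d = 1 := by rcases hx with h | h <;> omega
          have hy1 : b.count c = 1 := by rcases hy with h | h <;> omega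
          have h3 : Bef b c d := two_facts hxy hx1 hy1 hbef
          have h4 : md n p q d c b = b.filter (fun e => decide (e = d ∨ e = c)) := by
            subst hp1
            subst hq1
            unfold md ev
            simp
          rw [h4]
          exact (bef_filter b _ c d (by simp) (by simp)).2 h3
        · exact absurd hd.symm hcd
    · have h1 : d ∉ md n p q x y b := by
        rw [← hmem]
        simpa using (fun h => hd (Or.symm h))
      refine ⟨fun _ => bef_nm2 h1, fun _ h => hd (Or.inr h.1)⟩
  · have h1 : c ∉ md n p q x y b := by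
      rw [← hmem]
      simpa using (fun h => hc (Or.symm h))
    refine ⟨fun _ => bef_nm1 h1, fun _ h => hc (Or.inl h.2)⟩

theorem okb_sn {n k : ℕ} {C C1 : ℕ → List ℕ} (hC : OkB k C)
    (h : ∀ j ≤ k, ∀ c, Sn n ((C j).count c) ((C1 j).count c)) : OkB k C1 := by
  refine Pool.Agent.MWH.H10.okb_sh hC (fun j hj c => ?_)
  rcases h j hj c with h1 | h1
  · exact Or.inl h1
  · exact Or.inr ⟨h1.1, h1.2.1⟩

theorem rr_G (hnfe : NfeStmt) {n : ℕ} {β : FIC} (hb : BaseH n β) {k : ℕ} {C C1 : ℕ → List ℕ}
    (hC : OkB k C) (h : ∀ j ≤ k, G n (C j) (C1 j)) : RR β (asm k C) (asm k C1) :=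
  hnfe n β hb k C C1 hC (okb_sn hC fun j hj => (h j hj).1) (fun c _ j hj => (h j hj).1 c)
    (fun i hi x y hxy _ _ _ => (h i hi).2 x y hxy)

theorem core (hnfe : NfeStmt) {n : ℕ} {β θ : FIC} (hb : BaseH n β) (hle : β ≤ θ) {k : ℕ}
    {B B' C : ℕ → List ℕ} {i : ℕ} {A D : List ℕ} {x y : ℕ} (hB : OkB k B) (hB' : OkB k B')
    (hC : OkB k C) (hSC : EqT n k B C) (hSC' : EqT n k B' C) (hi : i ≤ k)
    (hCi : C i = A ++ x :: y :: D) (hne : x ≠ y) (hxD : x ∉ D) (hyA : y ∉ A)
    (hno : ∀ j ≤ k, j ≠ i → x ∉ C j ∨ y ∉ C j) (hb1 : Bef (B i) x y) (hb2 : ¬ Bef (B' i) x y)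
    (hr : RR θ (asm k (r2 x y B)) (asm k (r2 x y B'))) :
    RR θ (asm k C) (asm k (Function.update C i (A ++ y :: x :: D))) := by
  have hx : x ∈ C i := by rw [hCi]; simp
  have hy : y ∈ C i := by rw [hCi]; simp
  have hnx : NS k x := hC.ok i hi x hx
  have hny : NS k y := hC.ok i hi y hy
  have key : ∀ j, ∃ P Q : List ℕ, j ≤ k → G n (C j) (P ++ r2 x y B j ++ Q) ∧
      G n (Function.update C i (A ++ y :: x :: D) j) (P ++ r2 x y B' j ++ Q) := by
    intro j
    by_cases hji : j = i
    · subst hji
      have hmd : ∀ b : List ℕ, A ++ List.replicate (ev n ((B j).count x)) x ++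
          b.filter (fun c => decide (c = x ∨ c = y)) ++
            (List.replicate (ev n ((B j).count y)) y ++ D) =
          A ++ (md n ((B j).count x) ((B j).count y) x y b ++ D) := by
        intro b
        unfold md
        simp
      refine ⟨A ++ List.replicate (ev n ((B j).count x)) x,
        List.replicate (ev n ((B j).count y)) y ++ D, fun _ => ⟨?_, ?_⟩⟩
      · have h1 : G n (C j) (A ++ (md n ((B j).count x) ((B j).count y) x y (B j) ++ D)) :=
          blki1 hb.pos hne hCi hxD hyA (hSC x hnx j hi) (hSC y hny j hi)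
          (hSC x hnx j hi) (hSC y hny j hi) hb1
        rw [← hmd] at h1
        exact h1
      · rw [Function.update_self]
        have h1 : G n (A ++ y :: x :: D)
            (A ++ (md n ((B j).count x) ((B j).count y) x y (B' j) ++ D)) :=
          blki2 hb.pos hne hCi hxD hyA (hSC x hnx j hi) (hSC y hny j hi)
          (hSC' x hnx j hi) (hSC' y hny j hi) hb2
        rw [← hmd] at h1
        exact h1
    · by_cases hj : j ≤ k
      · obtain ⟨P, Q, h1, h2⟩ := blkj hb.pos (C j) (B j) (B' j) x y (hno j hj hji)
          (hSC x hnx j hj) (hSC y hny j hj) (hSC' x hnx j hj) (hSC' y hny j hj)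
        refine ⟨P, Q, fun _ => ⟨h1, ?_⟩⟩
        rw [Function.update_of_ne hji]
        exact h2
      · exact ⟨[], [], fun h => absurd h hj⟩
  choose P Q hPQ using key
  have hC3 : OkB k (Function.update C i (A ++ y :: x :: D)) := by
    refine okb_sn (n := n) hC fun j _ c => Or.inl ?_
    by_cases hji : j = i
    · subst hji
      rw [Function.update_self, hCi, List.count_append, List.count_append, List.count_cons,
        List.count_cons, List.count_cons, List.count_cons]
      omega
    · rw [Function.update_of_ne hji]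
  have e1 : RR θ (asm k C) (asm k (fun j => P j ++ r2 x y B j ++ Q j)) :=
    hle _ _ (rr_G hnfe hb hC fun j hj => (hPQ j hj).1)
  have e2 : RR θ (asm k (Function.update C i (A ++ y :: x :: D)))
      (asm k (fun j => P j ++ r2 x y B' j ++ Q j)) :=
    hle _ _ (rr_G hnfe hb hC3 fun j hj => (hPQ j hj).2)
  have e3 : RR θ (asm k (fun j => P j ++ r2 x y B j ++ Q j))
      (asm k (fun j => P j ++ r2 x y B' j ++ Q j)) :=
    rr_ins' θ P Q (fun j hj c hc => hB.ok j hj c (List.mem_of_mem_filter hc))
      (fun j hj c hc => hB'.ok j hj c (List.mem_of_mem_filter hc)) hr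
  exact θ.trans (θ.trans e1 e3) e2.symm

theorem swh (hmasn : MasnStmt) (hnfe : NfeStmt) : SwhStmt := by
  intro n β hb θ hle _ k B B' hB hB' hS hr
  refine hmasn n β θ hb.toBasN hle k B B' hB hB' hS ?_
  intro C i A D x y hC hSC hi hCi hne hxD hyA hnb
  have hx : x ∈ C i := by rw [hCi]; simp
  have hy : y ∈ C i := by rw [hCi]; simp
  have hnx : NS k x := hC.ok i hi x hx
  have hny : NS k y := hC.ok i hi y hy
  by_cases hno : ∀ j ≤ k, j ≠ i → x ∉ C j ∨ y ∉ C j
  · have hSC' : EqT n k B' C := eqT_trans (eqT_symm hS) hSC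
    have h1 := hr x y hnx hny hne
    by_cases h2 : Bef (B i) x y
    · have h3 : ¬ Bef (B' i) x y := fun h => hnb ⟨fun _ => h, fun _ => h2⟩
      exact core hnfe hb hle hB hB' hC hSC hSC' hi hCi hne hxD hyA hno h2 h3 h1
    · have h3 : Bef (B' i) x y := by
        by_contra h
        exact hnb ⟨fun h4 => absurd h4 h2, fun h4 => absurd h4 h⟩
      exact core hnfe hb hle hB' hB hC hSC' hSC hi hCi hne hxD hyA hno h3 h2 h1.symm
  · push Not at hno
    obtain ⟨j, hj, hji, h1, h2⟩ := hno
    exact hle _ _ (hb.cm2 k C hC i hi j hj hji A D x y hCi hne h1 h2)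

end Pool.Agent.MWHP.H10
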